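import Pool.Agent.MP_f6b137_pr.H74.Base

/-! Row SINC: tails, Gram matrix and Bessel inequality for the shifted sinc kernel. -/

namespace Pool.Agent.MP_f6b137_pr.H22

open MeasureTheory Filter Topology Pool.Agent.MP_f6b137_pr.H74
open scoped Real

noncomputable section

/-- the exponential of frequency `s` -/
def ee (s x : ℝ) : ℂ := Complex.exp (2 * π * Complex.I * s * x)

lemma ee_cont (s : ℝ) : Continuous (ee s) := by unfold ee; fun_prop

lemma ee_mul (s u x : ℝ) : ee s x * ee u x = ee (s + u) x := by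
  unfold ee; rw [← Complex.exp_add]; congr 1; push_cast; ring

lemma ee_conj (s x : ℝ) : (starRingEnd ℂ) (ee s x) = ee (-s) x := by
  unfold ee; rw [← Complex.exp_conj]; congr 1
  simp only [map_mul, Complex.conj_ofReal, Complex.conj_I, map_ofNat]; push_cast; ring

lemma ee_zero (x : ℝ) : ee 0 x = 1 := by simp [ee]

lemma int_ee (s : ℝ) : ∫ x in (-(1 / 2) : ℝ)..(1 / 2), ee s x = (Real.sinc (π * s) : ℂ) := by
  by_cases hs : s = 0
  · subst hs; simp [ee_zero]; norm_num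
  have hc : (2 * π * Complex.I * s : ℂ) ≠ 0 := by
    simp [hs, Real.pi_ne_zero]
  unfold ee
  rw [integral_exp_mul_complex hc, Real.sinc_of_ne_zero (mul_ne_zero Real.pi_ne_zero hs)]
  have h1 : (s : ℂ) ≠ 0 := by exact_mod_cast hs
  have h2 : (π : ℂ) ≠ 0 := by exact_mod_cast Real.pi_ne_zero
  push_cast
  rw [Complex.sin, show 2 * (π : ℂ) * Complex.I * s * (1 / 2) = π * s * Complex.I by ring,
    show 2 * (π : ℂ) * Complex.I * s * (-(1 / 2)) = -(π * s) * Complex.I by ring]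
  field_simp
  ring_nf
  simp only [Complex.I_sq]
  ring

lemma coeff_ee (t u : ℝ) (hab : (-(1 / 2) : ℝ) < 1 / 2) (i : ℤ) :
    fourierCoeffOn hab (fun x => ee t x + ee u x) i =
      ((Real.sinc (π * (t - i)) + Real.sinc (π * (u - i)) : ℝ) : ℂ) := by
  rw [fourierCoeffOn_eq_integral]
  have e : ∀ x : ℝ, (fourier (-i) (x : AddCircle ((1 / 2 : ℝ) - -(1 / 2)))) • (ee t x + ee u x) =
      ee (t - i) x + ee (u - i) x := by
    intro x
    have : fourier (-i) (x : AddCircle ((1 / 2 : ℝ) - -(1 / 2))) = ee (-i) x := by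
      rw [fourier_coe_apply]; unfold ee; congr 1; push_cast; ring
    rw [this, smul_eq_mul, mul_add, ee_mul, ee_mul]
    congr 2 <;> ring
  simp_rw [e]
  rw [intervalIntegral.integral_add ((ee_cont _).intervalIntegrable _ _)
    ((ee_cont _).intervalIntegrable _ _), int_ee, int_ee]
  norm_num

lemma int_normsq (t u : ℝ) :
    ∫ x in (-(1 / 2) : ℝ)..(1 / 2), ‖ee t x + ee u x‖ ^ 2 = 2 + 2 * Real.sinc (π * (t - u)) := by
  apply Complex.ofReal_injective
  rw [← intervalIntegral.integral_ofReal]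
  have e : ∀ x : ℝ, ((‖ee t x + ee u x‖ ^ 2 : ℝ) : ℂ) =
      (ee 0 x + ee 0 x) + (ee (t - u) x + ee (-(t - u)) x) := by
    intro x
    rw [← Complex.normSq_eq_norm_sq, ← Complex.mul_conj, map_add, ee_conj, ee_conj, add_mul,
      mul_add, mul_add, ee_mul, ee_mul, ee_mul, ee_mul]
    simp only [add_neg_cancel, ← sub_eq_add_neg, neg_sub]
    ring
  simp_rw [e]
  have hi : ∀ s, IntervalIntegrable (ee s) volume (-(1 / 2) : ℝ) (1 / 2) :=
    fun s => (ee_cont _).intervalIntegrable _ _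
  rw [intervalIntegral.integral_add ((hi _).add (hi _)) ((hi _).add (hi _)),
    intervalIntegral.integral_add (hi _) (hi _), intervalIntegral.integral_add (hi _) (hi _)]
  simp only [int_ee, mul_neg, Real.sinc_neg, mul_zero, Real.sinc_zero]
  push_cast; ring

lemma hasSum_sq_add (t u : ℝ) :
    HasSum (fun i : ℤ => (Real.sinc (π * (t - i)) + Real.sinc (π * (u - i))) ^ 2)
      (2 + 2 * Real.sinc (π * (t - u))) := by
  have hab : (-(1 / 2) : ℝ) < 1 / 2 := by norm_num
  have hc : Continuous fun x => ee t x + ee u x := (ee_cont t).add (ee_cont u)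
  have hL2 : MemLp (fun x => ee t x + ee u x) 2
      (volume.restrict (Set.Ioc (-(1 / 2) : ℝ) (1 / 2))) := by
    refine MemLp.of_bound hc.aestronglyMeasurable 2 (Eventually.of_forall fun x => ?_)
    have h1 : ∀ s, ‖ee s x‖ = 1 := by
      intro s
      unfold ee
      rw [show (2 * π * Complex.I * s * x : ℂ) = ((2 * π * s * x : ℝ) : ℂ) * Complex.I by
        push_cast; ring]
      exact Complex.norm_exp_ofReal_mul_I _
    exact (norm_add_le _ _).trans (by rw [h1, h1]; norm_num)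
  have h := hasSum_sq_fourierCoeffOn hab hL2
  simp only [coeff_ee, Complex.norm_real, Real.norm_eq_abs, sq_abs, int_normsq] at h
  convert h using 1
  norm_num

lemma hasSum_sq (t : ℝ) : HasSum (fun i : ℤ => Real.sinc (π * (t - i)) ^ 2) 1 := by
  have h := (hasSum_sq_add t t).mul_left (1 / 4)
  simp only [sub_self, mul_zero, Real.sinc_zero] at h
  have e : ∀ x : ℝ, 1 / 4 * (x + x) ^ 2 = x ^ 2 := fun x => by ring
  simp only [e] at h
  rwa [show (1 / 4 * (2 + 2 * 1) : ℝ) = 1 by norm_num] at h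

lemma hasSum_mul (t u : ℝ) :
    HasSum (fun i : ℤ => Real.sinc (π * (t - i)) * Real.sinc (π * (u - i)))
      (Real.sinc (π * (t - u))) := by
  have h := (((hasSum_sq_add t u).sub (hasSum_sq t)).sub (hasSum_sq u)).mul_left (1 / 2)
  have e : ∀ x y : ℝ, 1 / 2 * ((x + y) ^ 2 - x ^ 2 - y ^ 2) = x * y := fun x y => by ring
  have e' : ∀ x : ℝ, 1 / 2 * (2 + 2 * x - 1 - 1) = x := fun x => by ring
  simpa only [e, e'] using h

lemma tail_left (t : ℝ) (S : Finset ℤ) : ∀ R : ℝ, 1 / 2 < R → (∀ i ∈ S, R ≤ t - i) →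
    ∑ i ∈ S, 1 / (t - i) ^ 2 ≤ 1 / (R - 1 / 2) := by
  induction S using Finset.induction_on_max with
  | empty => intro R hR _; simp only [Finset.sum_empty]; apply div_nonneg <;> linarith
  | insert a s ha ih =>
    intro R hR h
    have hna : a ∉ s := fun h' => lt_irrefl _ (ha a h')
    rw [Finset.sum_insert hna]
    have h1 : R ≤ t - a := h a (Finset.mem_insert_self _ _)
    have h2 := ih (t - a + 1) (by linarith) fun i hi => by
      have : (i : ℝ) + 1 ≤ a := by exact_mod_cast ha i hi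
      linarith
    have h3 : 1 / (t - a - 1 / 2) ≤ 1 / (R - 1 / 2) :=
      one_div_le_one_div_of_le (by linarith) (by linarith)
    have h4 : 1 / (t - a) ^ 2 + 1 / (t - a + 1 - 1 / 2) ≤ 1 / (t - a - 1 / 2) := by
      generalize t - a = y at *
      have hy : 0 < y - 1 / 2 := by linarith
      have hy' : 0 < y + 1 - 1 / 2 := by linarith
      have hy0 : 0 < y := by linarith
      rw [div_add_div _ _ (by positivity) hy'.ne', div_le_div_iff₀ (by positivity) hy]
      nlinarith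
    linarith

lemma tail_int (t R : ℝ) (S : Finset ℤ) (hR : 1 / 2 < R) (h : ∀ i ∈ S, R ≤ |t - i|) :
    ∑ i ∈ S, 1 / (t - i) ^ 2 ≤ 2 / (R - 1 / 2) := by
  classical
  rw [← Finset.sum_filter_add_sum_filter_not S (fun i : ℤ => (0 : ℝ) ≤ t - i)]
  have h1 := tail_left t (S.filter fun i : ℤ => (0 : ℝ) ≤ t - i) R hR fun i hi => by
    rw [Finset.mem_filter] at hi
    have := h i hi.1
    rwa [abs_of_nonneg hi.2] at this
  have h2 := tail_left (-t) ((S.filter fun i : ℤ => ¬ (0 : ℝ) ≤ t - i).map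
      ⟨fun i => -i, neg_injective⟩) R hR fun i hi => by
    obtain ⟨j, hj, rfl⟩ := Finset.mem_map.1 hi
    rw [Finset.mem_filter] at hj
    have := h j hj.1
    rw [abs_of_neg (not_le.1 hj.2)] at this
    simp only [Function.Embedding.coeFn_mk, Int.cast_neg]
    linarith
  rw [Finset.sum_map] at h2
  have e : ∀ i : ℤ, 1 / (-t - (((⟨fun i => -i, neg_injective⟩ : ℤ ↪ ℤ) i : ℤ) : ℝ)) ^ 2 =
      1 / (t - i) ^ 2 := by
    intro i
    simp only [Function.Embedding.coeFn_mk, Int.cast_neg]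
    ring
  simp only [e] at h2
  have : 2 / (R - 1 / 2) = 1 / (R - 1 / 2) + 1 / (R - 1 / 2) := by ring
  linarith

lemma tail_nat (t R : ℝ) (S : Finset ℕ) (hR : 1 ≤ R) (h : ∀ i ∈ S, R ≤ |t - i|) :
    ∑ i ∈ S, 1 / (t - i) ^ 2 ≤ 4 / R := by
  have h1 := tail_int t R (S.map ⟨Nat.cast, Nat.cast_injective⟩) (by linarith) fun i hi => by
    obtain ⟨j, hj, rfl⟩ := Finset.mem_map.1 hi
    simpa using h j hj
  rw [Finset.sum_map] at h1
  simp only [Function.Embedding.coeFn_mk, Int.cast_natCast] at h1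
  refine h1.trans ?_
  rw [div_le_div_iff₀ (by linarith) (by linarith)]
  linarith

lemma sinc_sq_le (s : ℝ) (hs : s ≠ 0) : Real.sinc (π * s) ^ 2 ≤ 1 / 9 * (1 / s ^ 2) := by
  rw [Real.sinc_of_ne_zero (mul_ne_zero Real.pi_ne_zero hs), div_pow, mul_pow]
  have h1 := Real.sin_sq_le_one (π * s)
  have h2 : 9 ≤ π ^ 2 := by nlinarith [Real.pi_gt_three]
  have h3 : 0 < s ^ 2 := by positivity
  rw [div_le_iff₀ (by positivity)]
  have : 1 / 9 * (1 / s ^ 2) * (π ^ 2 * s ^ 2) = π ^ 2 / 9 := by field_simp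
  rw [this]; linarith

lemma sq_tail (t R : ℝ) (B : ℕ) (hR : 1 ≤ R) (h1 : R ≤ t) (h2 : t + R ≤ B) (S : Finset ℤ)
    (hS : ∀ i ∈ S, i < 0 ∨ (B : ℤ) ≤ i) :
    ∑ i ∈ S, Real.sinc (π * (t - 1 / 2 - i)) ^ 2 ≤ 1 / R := by
  have hb : ∀ i ∈ S, R + 1 / 2 ≤ |t - 1 / 2 - i| := by
    intro i hi
    rcases hS i hi with h | h
    · have : (i : ℝ) + 1 ≤ 0 := by exact_mod_cast h
      exact le_trans (by linarith) (le_abs_self _)
    · have : (B : ℝ) ≤ i := by exact_mod_cast h
      exact le_trans (by linarith) (neg_le_abs _)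
  have h3 := tail_int (t - 1 / 2) (R + 1 / 2) S (by linarith) hb
  have h4 : ∑ i ∈ S, Real.sinc (π * (t - 1 / 2 - i)) ^ 2 ≤
      ∑ i ∈ S, 1 / 9 * (1 / (t - 1 / 2 - i) ^ 2) :=
    Finset.sum_le_sum fun i hi => sinc_sq_le _ fun h0 => by
      have := hb i hi
      rw [h0, abs_zero] at this
      linarith
  rw [← Finset.mul_sum] at h4
  rw [add_sub_cancel_right] at h3
  have h5 : 0 < 1 / R := by positivity
  have h6 : 2 / R = 2 * (1 / R) := by ring
  linarith

lemma sk_eq (t : ℝ) (i : ℕ) : sk t i = Real.sinc (π * (t - 1 / 2 - ((i : ℤ) : ℝ))) := by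
  unfold sk; congr 2; push_cast; ring

lemma gram (t t' R : ℝ) (B : ℕ) (hR : 1 ≤ R) (h1 : R ≤ t) (h1' : R ≤ t') (h2 : t + R ≤ B)
    (h2' : t' + R ≤ B) :
    |∑ i ∈ Finset.range B, sk t i * sk t' i - Real.sinc (π * (t - t'))| ≤ 1 / R := by
  classical
  set f : ℤ → ℝ := fun i => Real.sinc (π * (t - 1 / 2 - i)) * Real.sinc (π * (t' - 1 / 2 - i))
    with hf
  have hs : HasSum f (Real.sinc (π * (t - t'))) := by
    have := hasSum_mul (t - 1 / 2) (t' - 1 / 2)
    rwa [show t - 1 / 2 - (t' - 1 / 2) = t - t' by ring] at this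
  set A : Finset ℤ := (Finset.range B).map ⟨Nat.cast, Nat.cast_injective⟩ with hA
  have e : ∑ i ∈ Finset.range B, sk t i * sk t' i = ∑ i ∈ A, f i := by
    rw [hA, Finset.sum_map]
    exact Finset.sum_congr rfl fun i _ => by simp only [sk_eq, hf, Function.Embedding.coeFn_mk]
  rw [e]
  have hl : Tendsto (fun S : Finset ℤ => |∑ i ∈ A, f i - ∑ i ∈ S, f i|) atTop
      (𝓝 |∑ i ∈ A, f i - Real.sinc (π * (t - t'))|) :=
    (Tendsto.const_sub _ hs).abs
  refine le_of_tendsto hl ((eventually_ge_atTop A).mono fun S hS => ?_)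
  rw [← Finset.sum_sdiff hS, show ∀ x y : ℝ, y - (x + y) = -x from fun x y => by ring, abs_neg]
  have hT : ∀ i ∈ S \ A, i < 0 ∨ (B : ℤ) ≤ i := by
    intro i hi
    by_contra hc
    push Not at hc
    refine (Finset.mem_sdiff.1 hi).2 (Finset.mem_map.2 ⟨i.toNat, ?_, ?_⟩)
    · rw [Finset.mem_range]; omega
    · simp only [Function.Embedding.coeFn_mk]; omega
  have h3 := sq_tail t R B hR h1 h2 _ hT
  have h4 := sq_tail t' R B hR h1' h2' _ hT
  refine (Finset.abs_sum_le_sum_abs _ _).trans ?_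
  have h5 : ∑ i ∈ S \ A, |f i| ≤ ∑ i ∈ S \ A, (1 / 2 * Real.sinc (π * (t - 1 / 2 - i)) ^ 2 +
      1 / 2 * Real.sinc (π * (t' - 1 / 2 - i)) ^ 2) :=
    Finset.sum_le_sum fun i _ => by
      simp only [hf]
      generalize Real.sinc (π * (t - 1 / 2 - i)) = x
      generalize Real.sinc (π * (t' - 1 / 2 - i)) = y
      rw [abs_le]
      constructor <;> nlinarith [sq_nonneg (x + y), sq_nonneg (x - y)]
  rw [Finset.sum_add_distrib, ← Finset.mul_sum, ← Finset.mul_sum] at h5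
  linarith

lemma sinc_nat (j k : ℕ) : Real.sinc (π * ((j : ℝ) - k)) = if j = k then 1 else 0 := by
  split_ifs with h
  · simp [h]
  · have h0 : (j : ℝ) - k ≠ 0 := sub_ne_zero.2 (by exact_mod_cast h)
    rw [Real.sinc_of_ne_zero (mul_ne_zero Real.pi_ne_zero h0),
      show π * ((j : ℝ) - k) = ((j - k : ℤ) : ℝ) * π by push_cast; ring, Real.sin_int_mul_pi,
      zero_div]

lemma bessel (τ : ℝ) (B : ℕ) (T : Finset ℕ) (c : ℕ → ℝ) :
    ∑ i ∈ Finset.range B, (∑ j ∈ T, c j * sk (j + τ) i) ^ 2 ≤ ∑ j ∈ T, c j ^ 2 := by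
  classical
  set g : ℕ → ℤ → ℝ := fun j i => Real.sinc (π * (j + τ - 1 / 2 - i)) with hg
  have hs : HasSum (fun i : ℤ => ∑ j ∈ T, ∑ k ∈ T, c j * c k * (g j i * g k i))
      (∑ j ∈ T, ∑ k ∈ T, c j * c k * Real.sinc (π * ((j : ℝ) - k))) := by
    refine hasSum_sum fun j _ => hasSum_sum fun k _ => HasSum.mul_left _ ?_
    have := hasSum_mul (j + τ - 1 / 2) (k + τ - 1 / 2)
    rwa [show (j : ℝ) + τ - 1 / 2 - (k + τ - 1 / 2) = j - k by ring] at this
  have e1 : ∀ i : ℤ, ∑ j ∈ T, ∑ k ∈ T, c j * c k * (g j i * g k i) =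
      (∑ j ∈ T, c j * g j i) ^ 2 := by
    intro i
    rw [sq, Finset.sum_mul_sum]
    exact Finset.sum_congr rfl fun j _ => Finset.sum_congr rfl fun k _ => by ring
  have e2 : ∑ j ∈ T, ∑ k ∈ T, c j * c k * Real.sinc (π * ((j : ℝ) - k)) = ∑ j ∈ T, c j ^ 2 := by
    refine Finset.sum_congr rfl fun j hj => ?_
    simp only [sinc_nat, mul_ite, mul_one, mul_zero, Finset.sum_ite_eq, hj, if_true, sq]
  simp only [e1, e2] at hs
  have h := sum_le_hasSum ((Finset.range B).map ⟨Nat.cast, Nat.cast_injective⟩)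
    (fun i _ => sq_nonneg _) hs
  rw [Finset.sum_map] at h
  refine le_trans (le_of_eq ?_) h
  exact Finset.sum_congr rfl fun i _ => by simp only [sk_eq, hg, Function.Embedding.coeFn_mk]

theorem rowSINC : RowSINC := ⟨tail_nat, gram, bessel⟩

end

end Pool.Agent.MP_f6b137_pr.H22
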